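import Mathlib
import Pool.Agent.H989R3.VR.Trans

set_option autoImplicit false

/-!
# Convex cocompact subgroups of subgroups of `W ⋊ A` are virtual retracts

`W` a right-angled Coxeter group, `A` a finite group acting on its defining graph.
-/

open Pool.Agent.H989R3.VR

namespace Pool.Agent.Results.MP_e55993_al.CoxeterTimesFinite

theorem result (S : Type) (E : SimpleGraph S) (A : Type) [Group A] [Finite A] [MulAction A S]
    (hA : ∀ (a : A) (i j : S), E.Adj i j → E.Adj (a • i) (a • j))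
    (G : Type) [Group G] [MulAction G (RACG E)] (π : G →* A)
    (hc : ∀ (g : G) (v : RACG E) (i : S), g • (v * gen E i) = (g • v) * gen E (π g • i))
    (hinj : ∀ g : G, π g = 1 → (∀ v : RACG E, g • v = v) → g = 1)
    (H : Subgroup G) (C : Set (RACG E)) (hne : C.Nonempty) (hC : GeodConvex C)
    (hH : ∀ h ∈ H, ∀ c ∈ C, h • c ∈ C)
    (hco : ∃ F : Set (RACG E), F.Finite ∧ ∀ c ∈ C, ∃ h ∈ H, h • c ∈ F) :
    ∃ K : Subgroup G, K.index ≠ 0 ∧ ∃ hHK : H ≤ K, ∃ ρ : K →* H,
      ∀ x : H, ρ ⟨x.1, hHK x.2⟩ = x :=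
  final hA π hc hinj H C hne hC hH hco

end Pool.Agent.Results.MP_e55993_al.CoxeterTimesFinite
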