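import Pool.Agent.H97R3.VR.Spec

/-! Quasiconvex subgroups of groups acting on CAT(0) cube complexes with virtually compact special
quotient are virtual retracts. -/

set_option autoImplicit false

namespace Pool.Agent.Results.MP_e55993_al.QuasiconvexOrbits

open Pool.Agent.H97R3.VR

/-- Let `G` act by automorphisms on a locally finite CAT(0) cube complex, given by its 1-skeleton, the
median graph `X`. Assume that some finite index subgroup `N` of `G` acts freely and cocompactly and
that the quotient of the cube complex by `N` is special in the sense of Haglund and Wise. If `H` is a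
subgroup of `G` and `x0` a vertex such that all geodesics of `X` from `x0` to points of the orbit
`H x0` stay within distance `κ` of this orbit, then `H` is a virtual retract of `G`. -/
theorem result {G V : Type} [Group G] [MulAction G V] (X : SimpleGraph V) (hX : IsMedian X)
    (hloc : ∀ v : V, (X.neighborSet v).Finite)
    (hG : ∀ (g : G) (x y : V), X.Adj x y → X.Adj (g • x) (g • y))
    (N : Subgroup G) [N.FiniteIndex] (hN : IsCompactSpecial X N)
    (H : Subgroup G) (x0 : V) (κ : ℕ)
    (hH : ∀ h ∈ H, ∀ m : V, Btw X x0 (h • x0) m → ∃ h' ∈ H, X.dist m (h' • x0) ≤ κ) :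
    IsVirtualRetract H :=
  quasiconvex' hX hloc hG hN H x0 κ hH

end Pool.Agent.Results.MP_e55993_al.QuasiconvexOrbits
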